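import Mathlib
import Pool.Agent.Work.MP_d237fe_co.Label

/-!
# Labellings of complete graphs without long increasing paths

The answer to Q1 of MP_d237fe_co is negative: some labellings of `K_n` have only increasing paths
of length `O(n log log n / log n)`.

Proof. Level `m` is a list of `2 ^ m` involutions of a set `X` of size `2 ^ m` such that for all
`x, y` exactly one of them maps `x` to `y` (ordered perfect matchings of the complete bipartite
graph).  Level `m + 1` on `X × Bool` consists of the maps `g × id`, followed by the maps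
`(σ g σ⁻¹) × not`, with a permutation `σ` of `X` chosen so that the weighted number of self-avoiding
increasing walks is at most its mean over all `σ`.  A walk of level `m + 1` is a pair of walks of
level `m`, and the second one, moved by `σ`, has to avoid the first one; this has probability at
most `exp (- ⌊i/2⌋ ⌊j/2⌋ / 2 ^ m)` for lengths `i, j`.  The weights
`exp ((m + 1) / 8 * ℓ ^ 2 / 2 ^ m - λ ℓ)` are compatible with this recursion, and give the bound
`8 * 2 ^ m * (log (m + 1) + 1) / (m + 1)` for the length of a path.  The complete graph is split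
recursively in halves.
-/

set_option autoImplicit false

namespace Pool.Agent.Results.MP_d237fe_co.SublinearPaths

/-- `L` is a labelling of `K_n`: a bijection from the edges (the unordered pairs of distinct
vertices) to `{1, ..., n choose 2}`; its values on the diagonal are not used -/
def IsLabelling (n : ℕ) (L : Sym2 (Fin n) → ℕ) : Prop :=
  Set.BijOn L {e | ¬ e.IsDiag} (Set.Icc 1 (n.choose 2))

/-- `v 0, v 1, ..., v ℓ` is an increasing path of length `ℓ`: distinct vertices, and the labels of
consecutive edges increase -/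
def IsIncreasingPath {n : ℕ} (L : Sym2 (Fin n) → ℕ) (ℓ : ℕ) (v : ℕ → Fin n) : Prop :=
  Set.InjOn v (Set.Iic ℓ) ∧ ∀ i, i + 1 < ℓ → L s(v i, v (i + 1)) < L s(v (i + 1), v (i + 2))

/-- the largest length of an increasing path that starts at `x` -/
noncomputable def longest {n : ℕ} (L : Sym2 (Fin n) → ℕ) (x : Fin n) : ℕ :=
  sSup {ℓ : ℕ | ∃ v : ℕ → Fin n, v 0 = x ∧ IsIncreasingPath L ℓ v}

theorem exists_longest {n : ℕ} (L : Sym2 (Fin n) → ℕ) (x : Fin n) :
    ∃ v : ℕ → Fin n, v 0 = x ∧ IsIncreasingPath L (longest L x) v := by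
  have hne : {ℓ : ℕ | ∃ v : ℕ → Fin n, v 0 = x ∧ IsIncreasingPath L ℓ v}.Nonempty := by
    refine ⟨0, fun _ => x, rfl, ?_, fun i hi => absurd hi (by omega)⟩
    intro i hi j hj _
    rw [Set.mem_Iic] at hi hj
    omega
  have hbdd : BddAbove {ℓ : ℕ | ∃ v : ℕ → Fin n, v 0 = x ∧ IsIncreasingPath L ℓ v} := by
    refine ⟨n, ?_⟩
    rintro ℓ ⟨v, -, hinj, -⟩
    have h1 : Set.InjOn v (Finset.range (ℓ + 1) : Finset ℕ) := by
      intro i hi j hj hij
      rw [Finset.coe_range, Set.mem_Iio] at hi hj
      exact hinj (Set.mem_Iic.mpr (by omega)) (Set.mem_Iic.mpr (by omega)) hij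
    have h2 := Finset.card_le_card_of_injOn (s := Finset.range (ℓ + 1))
      (t := (Finset.univ : Finset (Fin n))) v (fun _ _ => Finset.mem_univ _) h1
    rw [Finset.card_range, Finset.card_univ, Fintype.card_fin] at h2
    omega
  exact Nat.sSup_mem hne hbdd

/-- Q1 has a negative answer, with an explicit bound -/
theorem result :
    (∀ n : ℕ, 3 ≤ n → ∃ L : Sym2 (Fin n) → ℕ, IsLabelling n L ∧
      ∀ x : Fin n, (longest L x : ℝ) ≤
        48 * n * ((Real.log (Real.log n) + 1) / Real.log n)) ∧
    ¬ ∃ c : ℝ, 0 < c ∧ ∀ n : ℕ, 2 ≤ n → ∀ L : Sym2 (Fin n) → ℕ, IsLabelling n L →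
      ∃ x : Fin n, c * n ≤ longest L x := by
  have h1 : ∀ n : ℕ, 3 ≤ n → ∃ L : Sym2 (Fin n) → ℕ, IsLabelling n L ∧
      ∀ x : Fin n, (longest L x : ℝ) ≤
        48 * n * ((Real.log (Real.log n) + 1) / Real.log n) := by
    intro n hn
    obtain ⟨L, hL, hB⟩ := Pool.Agent.Work.MP_d237fe_co.exists_labelling n hn
    refine ⟨L, hL, fun x => ?_⟩
    obtain ⟨v, -, hinj, hinc⟩ := exists_longest L x
    exact hB _ v hinj hinc
  refine ⟨h1, ?_⟩
  rintro ⟨c, hc, h⟩
  obtain ⟨n, hn, hlt⟩ := Pool.Agent.Work.MP_d237fe_co.exists_small c hc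
  obtain ⟨L, hL, hB⟩ := h1 n hn
  obtain ⟨x, hx⟩ := h n (by omega) L hL
  exact absurd (hx.trans (hB x)) (not_le.mpr hlt)

end Pool.Agent.Results.MP_d237fe_co.SublinearPaths
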